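import Mathlib
import Pool.Agent.Lib.MP_3bba25_lc.Mono

set_option autoImplicit false

namespace Pool.Agent.Results.MP_3bba25_lc.NoLargeRectangle

open Pool.Agent.Lib.MP_3bba25_lc

theorem result (j : ℕ) : ∃ (m : ℕ) (f : (Fin m → ZMod 2) → Bool),
    2 ^ j ≤ m ∧ m ≤ 2 ^ (144 * j + 720) ∧
    QuantComputes (fun x y => f (x + y)) (40000000 * (j + 1)) ∧
    ∀ (A B : Finset (Fin m → ZMod 2)) (c : Bool), (∀ x ∈ A, ∀ y ∈ B, f (x + y) = c) →
      A.card * B.card * 2 ^ 4 ^ j ≤ 4 ^ m :=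
  separationMono j

end Pool.Agent.Results.MP_3bba25_lc.NoLargeRectangle
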