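import Mathlib
import Pool.Agent.Lib.C3bba25.OW.Moment
import Pool.Agent.Lib.C3bba25.OW.Union
import Pool.Agent.Lib.C3bba25.OW.Xor

set_option autoImplicit false

namespace Pool.Agent.Results.MP_3bba25_lc.OneWayGap

open Pool.Agent.Lib.C3bba25.OW

theorem result (q : ℕ)
    (F : Matrix (Fin q) (Fin q) (ZMod 2) × (Fin q → ZMod 2) × (Fin q → ZMod 2) × ZMod 2 →
      Matrix (Fin q) (Fin q) (ZMod 2) × (Fin q → ZMod 2) × (Fin q → ZMod 2) × ZMod 2 → Bool)
    (hF : ∀ x y, F x y = stab q (x + y).1 (x + y).2) :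
    QOneWay F (4 * q + 1) ∧ ROneWay F ((q + 1) ^ 2) ∧
      ∀ c, ROneWay F c ∨ ROneWay (stab q) c → q ^ 2 ≤ 40000 * (c + 1) := by
  obtain rfl : F = fun x y => stab q (x + y).1 (x + y).2 := funext fun x => funext (hF x)
  have h := r_lower_of (moment_bound_of fun _ _ w h0 h2 =>
    total_bound w h0 h2 _ fun _ hM => (Finset.mem_filter.1 hM).2) q
  refine ⟨q_upper_xor q, xr_trivial _ _ ?_, fun c hc => h c (hc.elim (r_of_xor q c) id)⟩
  have h1 : Fintype.card (Matrix (Fin q) (Fin q) (ZMod 2)) = 2 ^ (q * q) := by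
    have e : Fintype.card (Matrix (Fin q) (Fin q) (ZMod 2)) =
        Fintype.card (Fin q → Fin q → ZMod 2) := Fintype.card_congr Matrix.of.symm
    rw [e, Fintype.card_fun, Fintype.card_fun, ZMod.card, Fintype.card_fin, pow_mul]
  simp only [Fintype.card_prod, h1, Fintype.card_fun, ZMod.card, Fintype.card_fin]
  exact le_of_eq (by ring)

end Pool.Agent.Results.MP_3bba25_lc.OneWayGap
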