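import Mathlib
import Pool.Agent.Lib.MP_3bba25_lc.MASep

set_option autoImplicit false

namespace Pool.Agent.Results.MP_3bba25_lc.XorOptimal

open Pool.Agent.Lib.MP_3bba25_lc

theorem result : ∃ (m : ℕ → ℕ) (f : ∀ j, (Fin (m j) → ZMod 2) → Bool),
    (∀ j, 2 ^ j ≤ m j ∧ m j ≤ 2 ^ (144 * j + 720) ∧
      QuantComputes (fun x y => f j (x + y)) (40000000 * (j + 1)) ∧
      (∃ c, RandComputes (fun x y => f j (x + y)) c) ∧
      ∀ c ≤ 2 ^ j, ¬ RandComputes (fun x y => f j (x + y)) c ∧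
        ¬ MAComputes (fun x y => f j (x + y)) c) ∧
    ∀ p : Polynomial ℝ, ∃ j,
      p.eval (quantCC (fun x y => f j (x + y)) : ℝ) < (randCC (fun x y => f j (x + y)) : ℝ) := by
  choose m f h1 h2 h3 h4 using separationMA
  have h5 : ∀ j, ∀ c ≤ 2 ^ j, ¬ RandComputes (fun x y => f j (x + y)) c :=
    fun j c hc h => h4 j c hc (ma_of_rand _ c h)
  refine ⟨m, f, fun j => ⟨h1 j, h2 j, h3 j, exists_randComputes _,
    fun c hc => ⟨h5 j c hc, h4 j c hc⟩⟩, fun p => ?_⟩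
  obtain ⟨j, hj⟩ := poly_lt 40000000 p
  refine ⟨j, (hj _ ((Nat.sInf_le (h3 j)).trans
    (Nat.mul_le_mul_left _ (Nat.le_self_pow (by norm_num) _)))).trans ?_⟩
  have h6 : 2 ^ j < randCC (fun x y => f j (x + y)) := by
    by_contra! h
    exact h5 j _ h (Nat.sInf_mem (exists_randComputes _))
  exact_mod_cast h6

end Pool.Agent.Results.MP_3bba25_lc.XorOptimal
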